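import Mathlib

/-!
# First order expansions of polynomial functions with values in a Lie algebra
-/

set_option autoImplicit false

namespace Pool.Agent.Q117.Met

universe u v

section

variable (F : Type u) [Field F] (B : Type v) [LieRing B] [LieAlgebra F B]

/-- Polynomial functions `F → B`. -/
def PF : Submodule F (F → B) :=
  Submodule.span F {g | ∃ (n : ℕ) (v : B), g = fun τ => τ ^ n • v}

variable {F B}

theorem PF_const (v : B) : (fun _ : F => v) ∈ PF F B :=
  Submodule.subset_span ⟨0, v, by simp⟩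

theorem PF_mul {h : F → B} (hh : h ∈ PF F B) : (fun τ => τ • h τ) ∈ PF F B := by
  unfold PF at hh
  induction hh using Submodule.span_induction with
  | mem x hx =>
    obtain ⟨n, v, rfl⟩ := hx
    exact Submodule.subset_span ⟨n + 1, v, by funext τ; simp [smul_smul, pow_succ']⟩
  | zero =>
    have : (fun τ : F => τ • (0 : F → B) τ) = 0 := by funext τ; simp
    rw [this]; exact Submodule.zero_mem _
  | add x y _ _ hx hy =>
    have : (fun τ : F => τ • (x + y) τ) = (fun τ => τ • x τ) + fun τ => τ • y τ := by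
      funext τ; simp
    rw [this]; exact Submodule.add_mem _ hx hy
  | smul c x _ hx =>
    have : (fun τ : F => τ • (c • x) τ) = c • fun τ => τ • x τ := by
      funext τ
      simp only [Pi.smul_apply]
      rw [smul_comm]
    rw [this]; exact Submodule.smul_mem _ _ hx

theorem PF_lie {g h : F → B} (hg : g ∈ PF F B) (hh : h ∈ PF F B) :
    (fun τ => ⁅g τ, h τ⁆) ∈ PF F B := by
  unfold PF at hg hh
  induction hg, hh using Submodule.span_induction₂ with
  | mem_mem x y hx hy =>
    obtain ⟨n, v, rfl⟩ := hx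
    obtain ⟨m, w, rfl⟩ := hy
    refine Submodule.subset_span ⟨n + m, ⁅v, w⁆, ?_⟩
    funext τ
    rw [smul_lie, lie_smul, smul_smul, pow_add]
  | zero_left y hy =>
    have : (fun τ : F => ⁅(0 : F → B) τ, y τ⁆) = 0 := by funext τ; simp
    rw [this]; exact Submodule.zero_mem _
  | zero_right x hx =>
    have : (fun τ : F => ⁅x τ, (0 : F → B) τ⁆) = 0 := by funext τ; simp
    rw [this]; exact Submodule.zero_mem _
  | add_left x y z _ _ _ hx hy =>
    have : (fun τ : F => ⁅(x + y) τ, z τ⁆) = (fun τ => ⁅x τ, z τ⁆) + fun τ => ⁅y τ, z τ⁆ := by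
      funext τ; simp
    rw [this]; exact Submodule.add_mem _ hx hy
  | add_right x y z _ _ _ hx hy =>
    have : (fun τ : F => ⁅x τ, (y + z) τ⁆) = (fun τ => ⁅x τ, y τ⁆) + fun τ => ⁅x τ, z τ⁆ := by
      funext τ; simp
    rw [this]; exact Submodule.add_mem _ hx hy
  | smul_left c x y _ _ hx =>
    have : (fun τ : F => ⁅(c • x) τ, y τ⁆) = c • fun τ => ⁅x τ, y τ⁆ := by
      funext τ; simp
    rw [this]; exact Submodule.smul_mem _ _ hx
  | smul_right c x y _ _ hx =>
    have : (fun τ : F => ⁅x τ, (c • y) τ⁆) = c • fun τ => ⁅x τ, y τ⁆ := by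
      funext τ; simp
    rw [this]; exact Submodule.smul_mem _ _ hx

/-- `g τ = v0 + τ v1 + τ² h(τ)` with `h` polynomial. -/
def Good (g : F → B) (v0 v1 : B) : Prop :=
  ∃ h ∈ PF F B, ∀ τ, g τ = v0 + τ • v1 + τ ^ 2 • h τ

theorem Good.const (v : B) : Good (fun _ : F => v) v 0 :=
  ⟨0, Submodule.zero_mem _, fun τ => by simp⟩

theorem Good.lin (b c : B) : Good (fun τ : F => b + τ • c) b c :=
  ⟨0, Submodule.zero_mem _, fun τ => by simp⟩

theorem Good.add {g g' : F → B} {v0 v1 w0 w1 : B} (h : Good g v0 v1) (h' : Good g' w0 w1) :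
    Good (fun τ => g τ + g' τ) (v0 + w0) (v1 + w1) := by
  obtain ⟨p, hp, e⟩ := h
  obtain ⟨q, hq, e'⟩ := h'
  refine ⟨p + q, Submodule.add_mem _ hp hq, fun τ => ?_⟩
  simp only [e, e', Pi.add_apply, smul_add]
  abel

theorem Good.smul (c : F) {g : F → B} {v0 v1 : B} (h : Good g v0 v1) :
    Good (fun τ => c • g τ) (c • v0) (c • v1) := by
  obtain ⟨p, hp, e⟩ := h
  refine ⟨c • p, Submodule.smul_mem _ _ hp, fun τ => ?_⟩
  simp only [e, Pi.smul_apply, smul_add]
  rw [smul_comm c τ, smul_comm c (τ ^ 2)]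

theorem Good.sum {ι : Type*} (s : Finset ι) {g : ι → F → B} {v0 v1 : ι → B}
    (h : ∀ i ∈ s, Good (g i) (v0 i) (v1 i)) :
    Good (fun τ => ∑ i ∈ s, g i τ) (∑ i ∈ s, v0 i) (∑ i ∈ s, v1 i) := by
  classical
  induction s using Finset.induction_on with
  | empty => simpa using Good.const (F := F) (0 : B)
  | insert a s ha ih =>
    simp only [Finset.sum_insert ha]
    exact (h a (Finset.mem_insert_self _ _)).add
      (ih fun i hi => h i (Finset.mem_insert_of_mem hi))

theorem Good.lie {g g' : F → B} {v0 v1 w0 w1 : B} (h : Good g v0 v1) (h' : Good g' w0 w1) :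
    Good (fun τ => ⁅g τ, g' τ⁆) ⁅v0, w0⁆ (⁅v0, w1⁆ + ⁅v1, w0⁆) := by
  obtain ⟨p, hp, e⟩ := h
  obtain ⟨q, hq, e'⟩ := h'
  refine ⟨(fun τ => ⁅v1, w1⁆) + ((fun τ => ⁅v0, q τ⁆) + (fun τ => ⁅p τ, w0⁆)) +
    ((fun τ => τ • ⁅v1, q τ⁆) + (fun τ => τ • ⁅p τ, w1⁆)) + (fun τ => τ • (τ • ⁅p τ, q τ⁆)),
    ?_, fun τ => ?_⟩
  · refine Submodule.add_mem _ (Submodule.add_mem _ (Submodule.add_mem _ (PF_const _)
      (Submodule.add_mem _ (PF_lie (PF_const _) hq) (PF_lie hp (PF_const _))))
      (Submodule.add_mem _ (PF_mul (PF_lie (PF_const _) hq)) (PF_mul (PF_lie hp (PF_const _)))))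
      (PF_mul (PF_mul (PF_lie hp hq)))
  · simp only [e, e', Pi.add_apply, lie_add, add_lie, smul_lie, lie_smul, smul_add, smul_smul]
    module

theorem PF_functional {h : F → B} (hh : h ∈ PF F B) (l : Module.Dual F B) :
    ∃ p : Polynomial F, ∀ τ, l (h τ) = p.eval τ := by
  unfold PF at hh
  induction hh using Submodule.span_induction with
  | mem x hx =>
    obtain ⟨n, v, rfl⟩ := hx
    exact ⟨Polynomial.X ^ n * Polynomial.C (l v), fun τ => by
      rw [map_smul, smul_eq_mul, Polynomial.eval_mul, Polynomial.eval_pow, Polynomial.eval_X,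
        Polynomial.eval_C]⟩
  | zero => exact ⟨0, fun τ => by simp⟩
  | add x y _ _ hx hy =>
    obtain ⟨p, hp⟩ := hx
    obtain ⟨q, hq⟩ := hy
    exact ⟨p + q, fun τ => by simp [hp, hq]⟩
  | smul c x _ hx =>
    obtain ⟨p, hp⟩ := hx
    exact ⟨Polynomial.C c * p, fun τ => by simp [hp]⟩

theorem Good.eq_zero [Infinite F] {g : F → B} {v0 v1 : B} (h : Good g v0 v1)
    (hg : ∀ τ, g τ = 0) : v1 = 0 := by
  obtain ⟨p, hp, e⟩ := h
  rw [← Module.forall_dual_apply_eq_zero_iff F]
  intro l
  obtain ⟨P, hP⟩ := PF_functional hp l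
  have h0 : (Polynomial.C (l v0) + Polynomial.X * Polynomial.C (l v1) + Polynomial.X ^ 2 * P :
      Polynomial F) = 0 := by
    apply Polynomial.funext
    intro τ
    have h1 := congrArg l (e τ)
    rw [hg τ] at h1
    simp only [map_add, map_smul, map_zero, smul_eq_mul, hP] at h1
    rw [Polynomial.eval_add, Polynomial.eval_add, Polynomial.eval_mul, Polynomial.eval_mul,
      Polynomial.eval_pow, Polynomial.eval_X, Polynomial.eval_C, Polynomial.eval_C,
      Polynomial.eval_zero]
    exact h1.symm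
  have h1 := congrArg (fun Q => Polynomial.coeff Q 1) h0
  simpa [Polynomial.coeff_X_pow_mul', Polynomial.coeff_C] using h1

/-- A polynomial in `σ` with vector coefficients which vanishes identically has zero
coefficients. -/
theorem coeff_eq_zero [Infinite F] {ι : Type*} (s : Finset ι) (d : ι → ℕ) (v : ι → B)
    (h : ∀ σ : F, ∑ i ∈ s, σ ^ (d i) • v i = 0) (m : ℕ) :
    ∑ i ∈ s with d i = m, v i = 0 := by
  rw [← Module.forall_dual_apply_eq_zero_iff F]
  intro l
  have h0 : (∑ i ∈ s, Polynomial.X ^ (d i) * Polynomial.C (l (v i)) : Polynomial F) = 0 := by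
    apply Polynomial.funext
    intro τ
    have h1 := congrArg l (h τ)
    rw [map_sum, map_zero] at h1
    rw [Polynomial.eval_finsetSum, Polynomial.eval_zero, ← h1]
    refine Finset.sum_congr rfl fun i _ => ?_
    rw [map_smul, smul_eq_mul, Polynomial.eval_mul, Polynomial.eval_pow, Polynomial.eval_X,
      Polynomial.eval_C]
  have h1 := congrArg (fun Q => Polynomial.coeff Q m) h0
  simp only [Polynomial.finsetSum_coeff, Polynomial.coeff_zero, Polynomial.coeff_mul_C,
    Polynomial.coeff_X_pow] at h1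
  rw [map_sum, Finset.sum_filter]
  refine Eq.trans (Finset.sum_congr rfl fun i _ => ?_) h1
  by_cases hi : d i = m
  · rw [if_pos hi, if_pos hi.symm, one_mul]
  · rw [if_neg hi, if_neg (Ne.symm hi), zero_mul]

end

end Pool.Agent.Q117.Met
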