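import Mathlib
import Pool.Agent.Q117.Met.Good

/-!
# Identities of metabelian Lie algebras in characteristic zero
-/

set_option autoImplicit false

namespace Pool.Agent.Q117.Met

universe u v

/-! ## Words -/

section Words

variable {B : Type v} [LieRing B]

/-- The value of a nonassociative word in a Lie algebra. -/
def ev (a : ℕ → B) : FreeMagma ℕ → B
  | .of i => a i
  | .mul x y => ⁅ev a x, ev a y⁆

theorem ev_mul (a : ℕ → B) (x y : FreeMagma ℕ) : ev a (x * y) = ⁅ev a x, ev a y⁆ := rfl

variable {F : Type u} [Field F]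

/-- The linear part of a word. -/
def lam (s : ℕ → F) : FreeMagma ℕ → F
  | .of i => s i
  | .mul _ _ => 0

/-- The coefficient of the first order term. -/
def del (s r : ℕ → F) : FreeMagma ℕ → F
  | .of i => r i
  | .mul x y => lam s x * del s r y - lam s y * del s r x

theorem length_pos (w : FreeMagma ℕ) : 1 ≤ w.length := by
  induction w using FreeMagma.rec with
  | of i => exact le_refl _
  | mul x y hx hy => show 1 ≤ x.length + y.length; omega

theorem length_mul (x y : FreeMagma ℕ) : (FreeMagma.mul x y).length = x.length + y.length := rfl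

theorem lam_eq_zero (s : ℕ → F) (w : FreeMagma ℕ) (h : w.length ≠ 1) : lam s w = 0 := by
  cases w with
  | of i => exact absurd rfl h
  | mul x y => rfl

end Words

section Engel

variable {F : Type u} [Field F] {B : Type v} [LieRing B] [LieAlgebra F B]

variable (F) in
/-- The operator `(ad b)^n`. -/
def it (b : B) (n : ℕ) : Module.End F B := (LieAlgebra.ad F B b) ^ n

theorem it_zero (b y : B) : it F b 0 y = y := rfl

theorem it_succ (b : B) (n : ℕ) (y : B) : it F b (n + 1) y = ⁅b, it F b n y⁆ := by
  unfold it
  rw [pow_succ']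
  rfl

theorem it_succ' (b : B) (n : ℕ) (y : B) : it F b (n + 1) y = it F b n ⁅b, y⁆ := by
  unfold it
  rw [pow_succ]
  rfl

theorem it_smul (σ : F) (b : B) (n : ℕ) (y : B) : it F (σ • b) n y = σ ^ n • it F b n y := by
  induction n with
  | zero => simp [it_zero]
  | succ n ih => rw [it_succ, it_succ, ih, smul_lie, lie_smul, smul_smul, pow_succ']

theorem good_ev (s r : ℕ → F) (b c : B) (w : FreeMagma ℕ) :
    Good (fun τ : F => ev (fun i => s i • b + τ • (r i • c)) w) (lam s w • b)
      (del s r w • it F b (w.length - 1) c) := by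
  induction w using FreeMagma.rec with
  | of i => exact Good.lin _ _
  | mul x y hx hy =>
    have h := hx.lie hy
    have e0 : lam s (FreeMagma.mul x y) • b = ⁅lam s x • b, lam s y • b⁆ := by
      simp [lam]
    have e1 : del s r (FreeMagma.mul x y) • it F b ((FreeMagma.mul x y).length - 1) c =
        ⁅lam s x • b, del s r y • it F b (y.length - 1) c⁆ +
          ⁅del s r x • it F b (x.length - 1) c, lam s y • b⁆ := by
      have hx1 := length_pos x
      have hy1 := length_pos y
      rw [length_mul]
      have a1 : ⁅lam s x • b, del s r y • it F b (y.length - 1) c⁆ =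
          (lam s x * del s r y) • it F b (x.length + y.length - 1) c := by
        rw [smul_lie, lie_smul, smul_smul, ← it_succ]
        by_cases hxl : x.length = 1
        · congr 2
          rw [hxl]; congr 1; omega
        · rw [lam_eq_zero s x hxl]; simp
      have a2 : ⁅del s r x • it F b (x.length - 1) c, lam s y • b⁆ =
          -((lam s y * del s r x) • it F b (x.length + y.length - 1) c) := by
        rw [← lie_skew, smul_lie, lie_smul, smul_smul, ← it_succ]
        by_cases hyl : y.length = 1
        · congr 3
          rw [hyl]; congr 1; omega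
        · rw [lam_eq_zero s y hyl]; simp
      rw [a1, a2]
      simp only [del, sub_smul]
      abel
    rw [e0, e1]
    exact h

/-- The first order part of an identity. -/
theorem engel_of_identity [Infinite F] (c : FreeMagma ℕ →₀ F)
    (h : ∀ a : ℕ → B, (∑ w ∈ c.support, c w • ev a w) = 0) (s r : ℕ → F) (m : ℕ)
    (hm : (∑ w ∈ c.support with w.length - 1 = m, c w * del s r w) ≠ 0) (b y : B) :
    it F b m y = 0 := by
  have h1 : ∀ b : B, ∑ w ∈ c.support, (c w * del s r w) • it F b (w.length - 1) y = 0 := by
    intro b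
    have hg : Good (fun τ : F => ∑ w ∈ c.support,
        c w • ev (fun i => s i • b + τ • (r i • y)) w)
        (∑ w ∈ c.support, c w • (lam s w • b))
        (∑ w ∈ c.support, c w • (del s r w • it F b (w.length - 1) y)) :=
      Good.sum _ fun w _ => (good_ev s r b y w).smul (c w)
    have := hg.eq_zero fun τ => h _
    simpa only [smul_smul] using this
  have h2 := coeff_eq_zero (F := F) c.support (fun w => w.length - 1)
    (fun w => (c w * del s r w) • it F b (w.length - 1) y) (by
      intro σ
      have := h1 (σ • b)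
      rw [← this]
      refine Finset.sum_congr rfl fun w _ => ?_
      rw [it_smul, smul_comm]) m
  have h3 : (∑ w ∈ c.support with w.length - 1 = m, c w * del s r w) • it F b m y = 0 := by
    rw [← h2, Finset.sum_smul]
    refine Finset.sum_congr rfl fun w hw => ?_
    rw [(Finset.mem_filter.1 hw).2]
  exact (smul_eq_zero.1 h3).resolve_left hm

end Engel

/-! ## Metabelian Lie algebras -/

/-- Metabelian Lie algebras. -/
def Metab (B : Type v) [LieRing B] : Prop := ∀ a b c d : B, ⁅⁅a, b⁆, ⁅c, d⁆⁆ = 0

/-- The elements which commute with the commutator subalgebra. -/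
def InK {B : Type v} [LieRing B] (y : B) : Prop := ∀ u v : B, ⁅⁅u, v⁆, y⁆ = 0

section Met

variable {B : Type v} [LieRing B]

theorem Metab.inK (hB : Metab B) (x y : B) : InK ⁅x, y⁆ := fun u v => hB u v x y

theorem InK.lie {y : B} (hy : InK y) (b : B) : InK ⁅b, y⁆ := by
  intro u v
  rw [leibniz_lie, hy, hy, lie_zero, add_zero]

theorem InK.comm {y : B} (hy : InK y) (x z : B) : ⁅x, ⁅z, y⁆⁆ = ⁅z, ⁅x, y⁆⁆ := by
  rw [leibniz_lie, hy, zero_add]

theorem inK_zero : InK (0 : B) := fun _ _ => lie_zero _

/-- `[c_1, [c_2, …, [c_n, y]…]]` -/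
def lb (l : List B) (y : B) : B := l.foldr (fun c z => ⁅c, z⁆) y

theorem lb_nil (y : B) : lb [] y = y := rfl

theorem lb_cons (c : B) (l : List B) (y : B) : lb (c :: l) y = ⁅c, lb l y⁆ := rfl

theorem lb_append (l l' : List B) (y : B) : lb (l ++ l') y = lb l (lb l' y) := by
  unfold lb
  rw [List.foldr_append]

theorem lb_zero (l : List B) : lb l (0 : B) = 0 := by
  induction l with
  | nil => rfl
  | cons c l ih => rw [lb_cons, ih, lie_zero]

theorem lb_add (l : List B) (x y : B) : lb l (x + y) = lb l x + lb l y := by
  induction l with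
  | nil => rfl
  | cons c l ih => rw [lb_cons, ih, lie_add]; rfl

theorem lb_neg (l : List B) (x : B) : lb l (-x) = -lb l x := by
  induction l with
  | nil => rfl
  | cons c l ih => rw [lb_cons, ih, lie_neg]; rfl

theorem lb_sub (l : List B) (x y : B) : lb l (x - y) = lb l x - lb l y := by
  rw [sub_eq_add_neg, lb_add, lb_neg, ← sub_eq_add_neg]

theorem InK.lb {y : B} (hy : InK y) (l : List B) : InK (lb l y) := by
  induction l with
  | nil => exact hy
  | cons c l ih => exact ih.lie c

theorem lb_comm {y : B} (hy : InK y) (c : B) (l : List B) : ⁅c, lb l y⁆ = lb l ⁅c, y⁆ := by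
  induction l with
  | nil => rfl
  | cons d l ih => rw [lb_cons, lb_cons, ← ih, (hy.lb l).comm]

theorem lb_perm {y : B} (hy : InK y) {l l' : List B} (h : l.Perm l') : lb l y = lb l' y := by
  induction h with
  | nil => rfl
  | cons c _ ih => rw [lb_cons, lb_cons, ih]
  | swap c d l => rw [lb_cons, lb_cons, lb_cons, lb_cons, (hy.lb l).comm]
  | trans _ _ ih1 ih2 => rw [ih1, ih2]

end Met

section MetEngel

variable {F : Type u} [Field F] {B : Type v} [LieRing B] [LieAlgebra F B]

theorem InK.it {y : B} (hy : InK y) (b : B) (n : ℕ) : InK (it F b n y) := by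
  induction n with
  | zero => exact hy
  | succ n ih => rw [it_succ]; exact ih.lie b

theorem it_comm {y : B} (hy : InK y) (b z : B) (n : ℕ) :
    ⁅z, it F b n y⁆ = it F b n ⁅z, y⁆ := by
  induction n with
  | zero => rfl
  | succ n ih => rw [it_succ, it_succ, ← ih, (hy.it b n).comm]

theorem good_it (b z : B) {g : F → B} {v0 v1 : B} (hg : Good g v0 v1) (h0 : InK v0) (n : ℕ) :
    Good (fun τ : F => it F (b + τ • z) n (g τ)) (it F b n v0)
      (it F b n v1 + (n : F) • it F b (n - 1) ⁅z, v0⁆) := by
  induction n with
  | zero => simpa [it_zero] using hg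
  | succ n ih =>
    have h := (Good.lin (F := F) b z).lie ih
    have e : it F b (n + 1) v1 + ((n + 1 : ℕ) : F) • it F b (n + 1 - 1) ⁅z, v0⁆ =
        ⁅b, it F b n v1 + (n : F) • it F b (n - 1) ⁅z, v0⁆⁆ + ⁅z, it F b n v0⁆ := by
      rw [it_comm h0, lie_add, lie_smul, ← it_succ, ← it_succ]
      rcases n with _ | n
      · simp
      · simp only [Nat.add_sub_cancel]
        push_cast
        rw [add_smul _ (1 : F), one_smul]
        abel
    rw [e]
    simp only [it_succ]
    exact h

variable [CharZero F]

theorem engel_comm (hB : Metab B) (n : ℕ) (hE : ∀ b c : B, it F b (n + 1) c = 0) (b z c : B) :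
    it F b n ⁅z, c⁆ = 0 := by
  rcases n with _ | n
  · have := hE z c
    rw [it_succ, it_zero] at this
    rw [it_zero, this]
  · have key : ∀ z c : B, it F b (n + 1) ⁅z, c⁆ +
        ((n + 1 : ℕ) : F) • it F b n ⁅z, ⁅b, c⁆⁆ = 0 := by
      intro z c
      have hg : Good (fun τ : F => ⁅b + τ • z, c⁆) ⁅b, c⁆ (⁅b, (0 : B)⁆ + ⁅z, c⁆) :=
        (Good.lin (F := F) b z).lie (Good.const c)
      have h1 := good_it b z hg (hB.inK _ _) (n + 1)
      have h2 := h1.eq_zero (by
        intro τ
        rw [← it_succ']
        exact hE _ _)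
      simpa using h2
    have h1 := key z c
    have h2 := key c z
    have e1 : ⁅z, ⁅b, c⁆⁆ = ⁅b, ⁅z, c⁆⁆ + ⁅c, ⁅b, z⁆⁆ := by
      rw [leibniz_lie z b c, ← lie_skew c ⁅b, z⁆, ← lie_skew b z, neg_lie]
      rw [neg_neg, add_comm]
    have e2 : ⁅c, z⁆ = -⁅z, c⁆ := (lie_skew c z).symm
    rw [e1, map_add, ← it_succ'] at h1
    rw [e2, map_neg] at h2
    set X := it F b (n + 1) ⁅z, c⁆
    set Y := it F b n ⁅c, ⁅b, z⁆⁆
    set N : F := ((n + 1 : ℕ) : F) with hN
    have h3 : X = N • Y := by
      rw [← sub_eq_zero, ← neg_eq_zero, ← h2]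
      abel
    rw [h3] at h1
    have h4 : (N * (N + 2)) • Y = 0 := by
      rw [← h1]
      module
    have hN0 : N ≠ 0 := by rw [hN]; exact Nat.cast_ne_zero.2 (by omega)
    have hN2 : N + 2 ≠ 0 := by
      rw [hN]
      have : ((n + 1 : ℕ) : F) + 2 = ((n + 3 : ℕ) : F) := by push_cast; ring
      rw [this]; exact Nat.cast_ne_zero.2 (by omega)
    have hY : Y = 0 := (smul_eq_zero.1 h4).resolve_left (mul_ne_zero hN0 hN2)
    rw [h3, hY, smul_zero]

theorem polar {y : B} (hy : InK y) (j : ℕ) (h : ∀ b : B, it F b (j + 1) y = 0) (b z : B) :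
    it F b j ⁅z, y⁆ = 0 := by
  have h1 := good_it b z (Good.const (F := F) y) hy (j + 1)
  have h2 := h1.eq_zero fun τ => h _
  simp only [map_zero, zero_add, Nat.add_sub_cancel] at h2
  refine (smul_eq_zero.1 h2).resolve_left ?_
  exact Nat.cast_ne_zero.2 (by omega)

theorem lb_eq_zero (j : ℕ) : ∀ {y : B} (_ : InK y) (_ : ∀ b : B, it F b j y = 0) (l : List B)
    (_ : l.length = j), lb l y = 0 := by
  induction j with
  | zero =>
    intro y hy h l hl
    rw [List.length_eq_zero_iff] at hl
    subst hl
    exact h 0
  | succ j ih =>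
    intro y hy h l hl
    rcases l with _ | ⟨c, l⟩
    · simp at hl
    · rw [lb_cons, lb_comm hy]
      exact ih (hy.lie c) (fun b => polar hy j h b c) l (by simpa using hl)

theorem lb_eq_zero_of_engel (hB : Metab B) (n : ℕ) (hE : ∀ b c : B, it F b (n + 1) c = 0)
    (x y : B) (l : List B) (hl : n ≤ l.length) : lb l ⁅x, y⁆ = 0 := by
  rw [← List.take_append_drop (l.length - n) l, lb_append,
    lb_eq_zero (F := F) n (hB.inK x y) (fun b => engel_comm hB n hE b x y), lb_zero]
  rw [List.length_drop]; omega

end MetEngel

/-! ## Normal forms of words -/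

section NF

/-- The normal form `(i, j, l)` of a word of length at least two, meaning that the value of the
word in metabelian algebras is `[a_{l_1}, [a_{l_2}, …, [a_i, a_j]…]]`; the normal form is `none`
for the words which vanish in metabelian algebras. -/
def nf : FreeMagma ℕ → Option (ℕ × ℕ × List ℕ)
  | .of _ => none
  | .mul (.of i) (.of j) => some (i, j, [])
  | .mul (.of k) (.mul x y) => (nf (.mul x y)).map fun p => (p.1, p.2.1, k :: p.2.2)
  | .mul (.mul x y) (.of k) => (nf (.mul x y)).map fun p => (p.2.1, p.1, k :: p.2.2)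
  | .mul (.mul _ _) (.mul _ _) => none

variable {B : Type v} [LieRing B]

theorem ev_nf (hB : Metab B) (a : ℕ → B) (w : FreeMagma ℕ) (hw : w.length ≠ 1) :
    (∀ i j l, nf w = some (i, j, l) →
      ev a w = lb (l.map a) ⁅a i, a j⁆ ∧ l.length + 2 = w.length) ∧
    (nf w = none → ev a w = 0) := by
  induction w using FreeMagma.rec with
  | of i => exact absurd rfl hw
  | mul x y hx hy =>
    rcases x with i | ⟨x1, x2⟩
    · rcases y with j | ⟨y1, y2⟩
      · refine ⟨?_, ?_⟩
        · intro i' j' l h
          simp only [nf, Option.some.injEq, Prod.mk.injEq] at h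
          obtain ⟨rfl, rfl, rfl⟩ := h
          exact ⟨rfl, rfl⟩
        · intro h
          simp [nf] at h
      · have hl : (FreeMagma.mul y1 y2).length ≠ 1 := by
          have h1 := length_pos y1
          have h2 := length_pos y2
          rw [length_mul]; omega
        obtain ⟨h1, h2⟩ := hy hl
        refine ⟨?_, ?_⟩
        · intro i' j' l h
          simp only [nf, Option.map_eq_some_iff] at h
          obtain ⟨⟨p, q, l'⟩, hp, h⟩ := h
          simp only [Prod.mk.injEq] at h
          obtain ⟨rfl, rfl, rfl⟩ := h
          obtain ⟨h3, h4⟩ := h1 _ _ _ hp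
          refine ⟨?_, ?_⟩
          · show ⁅a i, ev a (FreeMagma.mul y1 y2)⁆ = _
            rw [h3]; rfl
          · rw [length_mul (FreeMagma.of i) (FreeMagma.mul y1 y2), ← h4]
            simp [FreeMagma.length]
            omega
        · intro h
          simp only [nf, Option.map_eq_none_iff] at h
          show ⁅a i, ev a (FreeMagma.mul y1 y2)⁆ = _
          rw [h2 h, lie_zero]
    · rcases y with k | ⟨y1, y2⟩
      · have hl : (FreeMagma.mul x1 x2).length ≠ 1 := by
          have h1 := length_pos x1
          have h2 := length_pos x2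
          rw [length_mul]; omega
        obtain ⟨h1, h2⟩ := hx hl
        refine ⟨?_, ?_⟩
        · intro i' j' l h
          simp only [nf, Option.map_eq_some_iff] at h
          obtain ⟨⟨p, q, l'⟩, hp, h⟩ := h
          simp only [Prod.mk.injEq] at h
          obtain ⟨rfl, rfl, rfl⟩ := h
          obtain ⟨h3, h4⟩ := h1 _ _ _ hp
          refine ⟨?_, ?_⟩
          · show ⁅ev a (FreeMagma.mul x1 x2), a k⁆ = _
            rw [h3, ← lie_skew, List.map_cons, lb_cons, ← lie_neg, ← lb_neg, lie_skew]
          · rw [length_mul (FreeMagma.mul x1 x2) (FreeMagma.of k), ← h4]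
            simp [FreeMagma.length]
        · intro h
          simp only [nf, Option.map_eq_none_iff] at h
          show ⁅ev a (FreeMagma.mul x1 x2), a k⁆ = _
          rw [h2 h, zero_lie]
      · refine ⟨?_, ?_⟩
        · intro i' j' l h
          simp [nf] at h
        · intro _
          exact hB _ _ _ _

theorem del_nf {F : Type u} [Field F] (s r : ℕ → F) (w : FreeMagma ℕ) (hw : w.length ≠ 1) :
    (∀ i j l, nf w = some (i, j, l) →
      del s r w = (l.map s).prod * (s i * r j - s j * r i)) ∧
    (nf w = none → del s r w = 0) := by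
  induction w using FreeMagma.rec with
  | of i => exact absurd rfl hw
  | mul x y hx hy =>
    rcases x with i | ⟨x1, x2⟩
    · rcases y with j | ⟨y1, y2⟩
      · refine ⟨?_, ?_⟩
        · intro i' j' l h
          simp only [nf, Option.some.injEq, Prod.mk.injEq] at h
          obtain ⟨rfl, rfl, rfl⟩ := h
          simp [del, lam]
        · intro h
          simp [nf] at h
      · have hl : (FreeMagma.mul y1 y2).length ≠ 1 := by
          have h1 := length_pos y1
          have h2 := length_pos y2
          rw [length_mul]; omega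
        obtain ⟨h1, h2⟩ := hy hl
        have h0 : del s r (FreeMagma.mul (FreeMagma.of i) (FreeMagma.mul y1 y2)) =
            s i * del s r (FreeMagma.mul y1 y2) := by
          rw [del, lam_eq_zero s _ hl]
          simp [lam]
        refine ⟨?_, ?_⟩
        · intro i' j' l h
          simp only [nf, Option.map_eq_some_iff] at h
          obtain ⟨⟨p, q, l'⟩, hp, h⟩ := h
          simp only [Prod.mk.injEq] at h
          obtain ⟨rfl, rfl, rfl⟩ := h
          rw [h0, h1 _ _ _ hp]
          simp only [List.map_cons, List.prod_cons]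
          ring
        · intro h
          simp only [nf, Option.map_eq_none_iff] at h
          rw [h0, h2 h, mul_zero]
    · rcases y with k | ⟨y1, y2⟩
      · have hl : (FreeMagma.mul x1 x2).length ≠ 1 := by
          have h1 := length_pos x1
          have h2 := length_pos x2
          rw [length_mul]; omega
        obtain ⟨h1, h2⟩ := hx hl
        have h0 : del s r (FreeMagma.mul (FreeMagma.mul x1 x2) (FreeMagma.of k)) =
            -(s k * del s r (FreeMagma.mul x1 x2)) := by
          rw [del, lam_eq_zero s _ hl]
          simp [lam]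
        refine ⟨?_, ?_⟩
        · intro i' j' l h
          simp only [nf, Option.map_eq_some_iff] at h
          obtain ⟨⟨p, q, l'⟩, hp, h⟩ := h
          simp only [Prod.mk.injEq] at h
          obtain ⟨rfl, rfl, rfl⟩ := h
          rw [h0, h1 _ _ _ hp]
          simp only [List.map_cons, List.prod_cons]
          ring
        · intro h
          simp only [nf, Option.map_eq_none_iff] at h
          rw [h0, h2 h, mul_zero, neg_zero]
      · refine ⟨?_, ?_⟩
        · intro i' j' l h
          simp [nf] at h
        · intro _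
          simp [del, lam]

/-- In a metabelian `m`-Engel algebra over a field of characteristic zero all words of length
greater than `m` vanish. -/
theorem ev_eq_zero_of_engel {F : Type u} [Field F] [CharZero F] [LieAlgebra F B] (hB : Metab B)
    (m : ℕ) (hE : ∀ b c : B, it F b m c = 0) (a : ℕ → B) (w : FreeMagma ℕ) (hw : m < w.length) :
    ev a w = 0 := by
  rcases m with _ | n
  · have : ∀ y : B, y = 0 := fun y => hE 0 y
    exact this _
  · obtain ⟨h1, h2⟩ := ev_nf hB a w (by omega)
    rcases hnf : nf w with _ | ⟨i, j, l⟩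
    · exact h2 hnf
    · obtain ⟨h3, h4⟩ := h1 _ _ _ hnf
      rw [h3]
      apply lb_eq_zero_of_engel (F := F) hB n hE
      rw [List.length_map]
      omega

end NF

/-! ## The first order part determines the identity in metabelian algebras -/

section Det

variable {B : Type v} [LieRing B]

/-- An element of a nonempty multiset. -/
noncomputable def cho (v : Multiset ℕ) : ℕ := open Classical in
  if h : ∃ x, x ∈ v then h.choose else 0

theorem cho_mem {v : Multiset ℕ} {x : ℕ} (h : x ∈ v) : cho v ∈ v := by
  have h' : ∃ x, x ∈ v := ⟨x, h⟩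
  rw [cho, dif_pos h']
  exact h'.choose_spec

/-- The product of the operators `ad a_i`, `i ∈ u`. -/
noncomputable def AD (a : ℕ → B) (u : Multiset ℕ) (y : B) : B := lb (u.toList.map a) y

theorem AD_coe (a : ℕ → B) (l : List ℕ) {y : B} (hy : InK y) :
    AD a (l : Multiset ℕ) y = lb (l.map a) y := by
  unfold AD
  apply lb_perm hy
  apply List.Perm.map
  rw [← Multiset.coe_eq_coe, Multiset.coe_toList]

theorem AD_cons (a : ℕ → B) (i : ℕ) (u : Multiset ℕ) {y : B} (hy : InK y) :
    AD a (i ::ₘ u) y = AD a u ⁅a i, y⁆ := by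
  induction u using Quotient.inductionOn with
  | _ l =>
    show AD a ((i :: l : List ℕ) : Multiset ℕ) y = AD a (l : Multiset ℕ) _
    rw [AD_coe a _ hy, AD_coe a _ (hy.lie _), List.map_cons, lb_cons, lb_comm hy]

theorem AD_add (a : ℕ → B) (u : Multiset ℕ) (x y : B) : AD a u (x + y) = AD a u x + AD a u y :=
  lb_add _ _ _

theorem AD_neg (a : ℕ → B) (u : Multiset ℕ) (x : B) : AD a u (-x) = -AD a u x := lb_neg _ _

theorem AD_sub (a : ℕ → B) (u : Multiset ℕ) (x y : B) : AD a u (x - y) = AD a u x - AD a u y :=
  lb_sub _ _ _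

theorem AD_zero (a : ℕ → B) (u : Multiset ℕ) : AD a u (0 : B) = 0 := lb_zero _

/-- The elements `β(v, j)`. -/
noncomputable def beta (a : ℕ → B) (v : Multiset ℕ) (j : ℕ) : B :=
  AD a ((v.erase (cho v)).erase j) ⁅a (cho v), a j⁆

theorem AD_beta (hB : Metab B) (a : ℕ → B) (i j : ℕ) (u : Multiset ℕ) :
    AD a u ⁅a i, a j⁆ = beta a (i ::ₘ j ::ₘ u) j - beta a (i ::ₘ j ::ₘ u) i := by
  unfold beta
  set v := i ::ₘ j ::ₘ u with hv
  have hc : cho v ∈ v := cho_mem (x := i) (by rw [hv]; exact Multiset.mem_cons_self _ _)
  by_cases h1 : cho v = i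
  · rw [h1]
    have e1 : (v.erase i).erase j = u := by
      rw [hv, Multiset.erase_cons_head, Multiset.erase_cons_head]
    rw [e1, lie_self, AD_zero, sub_zero]
  · by_cases h2 : cho v = j
    · rw [h2]
      have e1 : (v.erase j).erase i = u := by
        rw [hv, Multiset.cons_swap, Multiset.erase_cons_head, Multiset.erase_cons_head]
      rw [e1, lie_self, AD_zero, zero_sub, ← AD_neg, lie_skew]
    · have hcu : cho v ∈ u := by
        rw [hv] at hc
        rw [← hv] at hc
        have h3 : cho v ∈ i ::ₘ j ::ₘ u := hc
        rw [Multiset.mem_cons, Multiset.mem_cons] at h3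
        rcases h3 with h3 | h3 | h3
        · exact absurd h3 h1
        · exact absurd h3 h2
        · exact h3
      obtain ⟨u', hu'⟩ := Multiset.exists_cons_of_mem hcu
      set k := cho v with hk
      have e1 : (v.erase k).erase j = i ::ₘ u' := by
        rw [hv, hu', Multiset.cons_swap i j, Multiset.cons_swap i k, Multiset.cons_swap j k,
          Multiset.erase_cons_head, Multiset.erase_cons_head]
      have e2 : (v.erase k).erase i = j ::ₘ u' := by
        rw [hv, hu', Multiset.cons_swap j k, Multiset.cons_swap i k,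
          Multiset.erase_cons_head, Multiset.erase_cons_head]
      rw [e1, e2, hu', AD_cons a k u' (hB.inK _ _), AD_cons a i u' (hB.inK _ _),
        AD_cons a j u' (hB.inK _ _), ← AD_sub]
      congr 1
      rw [leibniz_lie (a k) (a i) (a j), ← lie_skew (a j) ⁅a k, a i⁆]
      abel

/-- The value of the basis element `(j, p)`. -/
noncomputable def gam (a : ℕ → B) (q : ℕ × Multiset ℕ) : B := open Classical in
  if q.2 = 0 then a q.1 else beta a (q.1 ::ₘ q.2) q.1

/-- The formal first order part of a word. -/
noncomputable def tau (F : Type u) [Field F] (w : FreeMagma ℕ) : (ℕ × Multiset ℕ) →₀ F :=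
  match w with
  | .of i => Finsupp.single (i, 0) 1
  | .mul x y =>
    match nf (.mul x y) with
    | some (i, j, l) => Finsupp.single (j, i ::ₘ (l : Multiset ℕ)) 1 -
        Finsupp.single (i, j ::ₘ (l : Multiset ℕ)) 1
    | none => 0

theorem gam_tau {F : Type u} [Field F] [LieAlgebra F B] (hB : Metab B) (a : ℕ → B)
    (w : FreeMagma ℕ) :
    Finsupp.linearCombination F (gam a) (tau F w) = ev a w := by
  rcases w with i | ⟨x, y⟩
  · simp [tau, gam, ev]
  · have hl : (FreeMagma.mul x y).length ≠ 1 := by
      have h1 := length_pos x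
      have h2 := length_pos y
      rw [length_mul]; omega
    obtain ⟨h1, h2⟩ := ev_nf hB a _ hl
    rcases hnf : nf (.mul x y) with _ | ⟨i, j, l⟩
    · rw [h2 hnf]
      simp only [tau, hnf, map_zero]
    · obtain ⟨h3, _⟩ := h1 _ _ _ hnf
      rw [h3, ← AD_coe a l (hB.inK _ _), AD_beta hB]
      simp only [tau, hnf, map_sub, Finsupp.linearCombination_single, one_smul, gam,
        Multiset.cons_ne_zero, if_false]
      rw [Multiset.cons_swap j i]

/-- The value of the basis element `(j, p)` in the field. -/
def mon {F : Type u} [Field F] (s r : ℕ → F) (q : ℕ × Multiset ℕ) : F :=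
  r q.1 * (q.2.map s).prod

theorem mon_tau {F : Type u} [Field F] (s r : ℕ → F) (w : FreeMagma ℕ) :
    Finsupp.linearCombination F (mon s r) (tau F w) = del s r w := by
  rcases w with i | ⟨x, y⟩
  · simp [tau, mon, del]
  · have hl : (FreeMagma.mul x y).length ≠ 1 := by
      have h1 := length_pos x
      have h2 := length_pos y
      rw [length_mul]; omega
    obtain ⟨h1, h2⟩ := del_nf s r _ hl
    rcases hnf : nf (.mul x y) with _ | ⟨i, j, l⟩
    · rw [h2 hnf]
      simp only [tau, hnf, map_zero]
    · rw [h1 _ _ _ hnf]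
      simp only [tau, hnf, map_sub, Finsupp.linearCombination_single, one_smul, mon,
        Multiset.map_cons, Multiset.prod_cons, Multiset.map_coe, Multiset.prod_coe]
      ring

/-- The exponent of the monomial `r_j ∏ s_i`. -/
noncomputable def code (q : ℕ × Multiset ℕ) : (ℕ ⊕ ℕ) →₀ ℕ :=
  Multiset.toFinsupp (Sum.inr q.1 ::ₘ q.2.map Sum.inl)

theorem code_injective : Function.Injective code := by
  rintro ⟨j, p⟩ ⟨j', p'⟩ h
  have h1 : (Sum.inr j ::ₘ p.map Sum.inl : Multiset (ℕ ⊕ ℕ)) =
      Sum.inr j' ::ₘ p'.map Sum.inl := Multiset.toFinsupp.injective h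
  have h2 : j = j' := by
    have h3 : (Sum.inr j : ℕ ⊕ ℕ) ∈ (Sum.inr j' ::ₘ p'.map Sum.inl : Multiset (ℕ ⊕ ℕ)) := by
      rw [← h1]; exact Multiset.mem_cons_self _ _
    simpa using h3
  subst h2
  rw [Multiset.cons_inj_right] at h1
  have h4 := Multiset.map_injective Sum.inl_injective h1
  rw [h4]

theorem mon_independent {F : Type u} [Field F] [Infinite F] (T : (ℕ × Multiset ℕ) →₀ F)
    (h : ∀ s r : ℕ → F, Finsupp.linearCombination F (mon s r) T = 0) : T = 0 := by
  classical
  let P : MvPolynomial (ℕ ⊕ ℕ) F := ∑ q ∈ T.support, MvPolynomial.monomial (code q) (T q)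
  have hP : P = 0 := by
    apply MvPolynomial.funext
    intro x
    rw [map_zero]
    have h1 := h (fun i => x (Sum.inl i)) (fun i => x (Sum.inr i))
    rw [← h1, Finsupp.linearCombination_apply, Finsupp.sum]
    simp only [P, map_sum, smul_eq_mul]
    refine Finset.sum_congr rfl fun q _ => ?_
    rw [MvPolynomial.eval_monomial]
    congr 1
    have h2 : ∀ m : Multiset (ℕ ⊕ ℕ),
        ((Multiset.toFinsupp m).prod fun n e => x n ^ e) = (m.map x).prod := by
      intro m
      induction m using Multiset.induction_on with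
      | empty => simp
      | cons a m ih =>
        rw [← Multiset.singleton_add, Multiset.toFinsupp_add, Finsupp.prod_add_index', ih]
        · simp
        · simp
        · intro a b c; exact pow_add _ _ _
    rw [code, h2, mon]
    simp
  ext q
  have h1 : MvPolynomial.coeff (code q) P = 0 := by rw [hP]; simp
  simp only [P, MvPolynomial.coeff_sum, MvPolynomial.coeff_monomial] at h1
  by_cases hq : q ∈ T.support
  · rw [Finset.sum_eq_single q] at h1
    · simpa using h1
    · intro q' _ hne
      rw [if_neg]
      intro h2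
      exact hne (code_injective h2)
    · intro h2
      exact absurd hq h2
  · simpa using hq

/-- If the first order part of the degree `e` component of `c` vanishes, then the component is an
identity of all metabelian algebras. -/
theorem component_eq_zero {F : Type u} [Field F] [Infinite F] [LieAlgebra F B] (hB : Metab B)
    (c : FreeMagma ℕ →₀ F) (e : ℕ)
    (h : ∀ s r : ℕ → F, ∑ w ∈ c.support with w.length = e, c w * del s r w = 0) (a : ℕ → B) :
    ∑ w ∈ c.support with w.length = e, c w • ev a w = 0 := by
  have h1 : (∑ w ∈ c.support with w.length = e, c w • tau F w) = 0 := by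
    apply mon_independent
    intro s r
    rw [map_sum, ← h s r]
    refine Finset.sum_congr rfl fun w _ => ?_
    rw [map_smul, mon_tau, smul_eq_mul]
  have h2 := congrArg (Finsupp.linearCombination F (gam a)) h1
  rw [map_sum, map_zero] at h2
  rw [← h2]
  refine Finset.sum_congr rfl fun w _ => ?_
  rw [map_smul, gam_tau hB]

end Det

end Pool.Agent.Q117.Met
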